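import Mathlib
import Pool.Agent.H46.ABCF.Final

/-!
# Range of the topological entropy of `(a,b)`-continued fraction maps
-/

namespace Pool.Agent.Results.MP_bb7674_an.EntropyRange

open Filter Topology Pool.Agent.H46.ABCF

/-- Let `κ` be the real root of `κ³ - κ² - 1 = 0`, let `(a,b)` lie in
`𝒫 = {a ≤ 0 ≤ b, b - a ≥ 1, -ab ≤ 1}` and let `F = fTilde e a b` be the interval map of
`[-1, 1]` belonging to `f_{a,b}` (with either representative `e = ± 1` of `S 0 = ∞`).  Then the
limit `h_top = lim (1/n) log (number of laps of Fⁿ)` exists and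
`log κ ≤ h_top ≤ log ((1 + √5) / 2)`, whether laps are required to be intervals of continuity
(`C` true) or only of monotonicity (`C` false). -/
theorem result (κ : ℝ) (hκ : κ ^ 3 - κ ^ 2 - 1 = 0) (a b : ℝ) (ha : a ≤ 0) (hb : 0 ≤ b)
    (hab : 1 ≤ b - a) (hab' : -(a * b) ≤ 1) (e : ℝ) (he : e = 1 ∨ e = -1) (C : Prop) :
    ∃ h : ℝ,
      Tendsto (fun n : ℕ => Real.log (lapNumber C (fTilde e a b)^[n]) / n) atTop (𝓝 h) ∧
      Real.log κ ≤ h ∧ h ≤ Real.log ((1 + √5) / 2) :=
  entropy_range κ hκ a b ha hb hab hab' e he C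

end Pool.Agent.Results.MP_bb7674_an.EntropyRange
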